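import Pool.Agent.Helper99.KS.S2BAux
import Pool.Agent.Helper42.KS.BB

set_option autoImplicit false

open Finset

namespace Pool.Agent.Helper59.KS

/-- BLOCK S2B : bibranchings in the digraph `D*` on `X ∪ Y`, `Y = Zᶜ` (uses BB) -/
theorem dstar {V : Type} [Fintype V] [DecidableEq V] (T : V → V → Prop) (k b : ℕ) (hk : 1 ≤ k)
    (hC : Conn T k) (X Z : Finset V) (hXZ : X ⊆ Z) (hX0 : X.Nonempty) (hZ0 : Z ≠ univ)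
    (_hX : (arcs T Xᶜ X).card = b) (_hZ : (arcs T Zᶜ Z).card = b)
    (s : V → V → Fin b)
    (hs0 : ∀ (i : Fin b) (W : Finset V), X ⊆ W → W ⊆ Z → ∃ u v, u ∉ W ∧ v ∈ W ∧ T u v ∧ s u v = i)
    (hs1 : ∀ p ∈ arcs T Xᶜ X, ∀ p' ∈ arcs T Xᶜ X, s p.1 p.2 = s p'.1 p'.2 → p = p')
    (hs2 : ∀ p ∈ arcs T Zᶜ Z, ∀ p' ∈ arcs T Zᶜ Z, s p.1 p.2 = s p'.1 p'.2 → p = p') :
    ∃ (c : V → V → Fin k) (χ : Fin b → Fin k),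
      (∀ (j : Fin k) (X' : Finset V), X'.Nonempty → X' ⊆ X →
        (∃ u v, u ∈ X \ X' ∧ v ∈ X' ∧ T u v ∧ c u v = j) ∨
        (∃ u v, u ∉ X ∧ v ∈ X' ∧ T u v ∧ χ (s u v) = j)) ∧
      (∀ (j : Fin k) (Y' : Finset V), Y'.Nonempty → Disjoint Y' Z →
        (∃ u v, u ∈ Y' ∧ v ∉ Z ∧ v ∉ Y' ∧ T u v ∧ c u v = j) ∨
        (∃ u v, u ∈ Y' ∧ v ∈ Z ∧ T u v ∧ χ (s u v) = j)) :=
  dstar_of (fun _ _ _ _ _ src dst k hk S T hd hT hS => bibranching src dst k hk S T hd hT hS)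
    T k b hk hC X Z hXZ hX0 hZ0 s hs0 hs1 hs2

end Pool.Agent.Helper59.KS
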